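import Pool.Agent.Helper73.LR.Stmts
import Pool.Agent.Helper51.HV.J

/-!
# Caps of a given volume exist and minimise `GG K u τ + d τ` (project MP_a2630c_LR, module LEV)
-/

open MeasureTheory Set Metric Real Filter Topology
open scoped RealInnerProductSpace ENNReal
open Pool.Agent.Helper16.Buoy (E cap IsEllipsoid Homothetic buoyancyBody)
open Pool.Agent.Helper73.HV (supp SBody)

namespace Pool.Agent.Helper65.LR

open Pool.Agent.Helper73.LR Pool.Agent.Helper51.HV

variable {n : ℕ} {K : Set (E n)}

theorem GG_int (hK : IsCompact K) (u : E n) (τ : ℝ) :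
    IntegrableOn (fun x : E n => max (inner ℝ u x - τ) 0) K :=
  int_on hK (f := fun x => max (inner ℝ u x - τ) 0) (by fun_prop)

theorem cap_int (hK : IsCompact K) (u : E n) (τ : ℝ) {f : E n → ℝ} (hf : Continuous f) :
    IntegrableOn f (cap K u τ) := (int_on hK hf).mono_set (cap_subset u τ)

/-- `GG` is the integral of `<u,x> - τ` over the cap. -/
theorem GG_eq (hK : IsCompact K) (u : E n) (τ : ℝ) :
    GG K u τ = ∫ x in cap K u τ, (inner ℝ u x - τ : ℝ) := by
  have hm : MeasurableSet {x : E n | τ ≤ inner ℝ u x} :=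
    measurableSet_le measurable_const (by fun_prop)
  unfold GG
  rw [← integral_inter_add_sdiff (f := fun x : E n => max (inner ℝ u x - τ) 0) hm (GG_int hK u τ)]
  have h2 : ∫ x in K \ {x : E n | τ ≤ inner ℝ u x}, max (inner ℝ u x - τ) 0 = 0 := by
    rw [setIntegral_congr_fun (g := fun _ => 0) (hK.measurableSet.diff hm)]
    · simp
    · rintro x ⟨_, hx⟩
      simp only [mem_ofPred_eq, not_le] at hx
      exact max_eq_right (by linarith)
  rw [h2, add_zero]
  apply setIntegral_congr_fun
  · exact cap_meas hK u τ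
  · intro x hx
    have : τ ≤ inner ℝ u x := hx.2
    exact max_eq_left (by linarith)

/-- `GG` is at least the integral of `<u,x> - τ'` over any cap. -/
theorem GG_ge (hK : IsCompact K) (u : E n) (τ τ' : ℝ) :
    ∫ x in cap K u τ, (inner ℝ u x - τ' : ℝ) ≤ GG K u τ' := by
  unfold GG
  have h1 : ∫ x in cap K u τ, (inner ℝ u x - τ' : ℝ) ≤
      ∫ x in cap K u τ, max (inner ℝ u x - τ') 0 := by
    apply setIntegral_mono_on
    · exact cap_int hK u τ (by fun_prop)
    · exact (GG_int hK u τ').mono_set (cap_subset u τ)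
    · exact cap_meas hK u τ
    · intro x _
      exact le_max_left _ _
  refine h1.trans ?_
  apply setIntegral_mono_set
  · exact GG_int hK u τ'
  · exact Filter.Eventually.of_forall fun x => le_max_right _ _
  · exact Filter.Eventually.of_forall (cap_subset u τ)

theorem int_cap_sub (hK : IsCompact K) (u : E n) (τ τ' : ℝ) {d : ℝ} (hd : 0 ≤ d)
    (hv : volume (cap K u τ) = ENNReal.ofReal d) :
    ∫ x in cap K u τ, (inner ℝ u x - τ' : ℝ) = (∫ x in cap K u τ, (inner ℝ u x : ℝ)) - d * τ' := by
  rw [integral_sub (cap_int hK u τ (by fun_prop)) (cap_int hK u τ (by fun_prop)), setIntegral_const,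
    measureReal_def, hv, ENNReal.toReal_ofReal hd, smul_eq_mul]

/-- `GG K u τ + d τ` is the integral of `<u,x>` over the cap of volume `d`. -/
theorem GG_add (hK : IsCompact K) (u : E n) (τ : ℝ) {d : ℝ} (hd : 0 ≤ d)
    (hv : volume (cap K u τ) = ENNReal.ofReal d) :
    GG K u τ + d * τ = ∫ x in cap K u τ, (inner ℝ u x : ℝ) := by
  rw [GG_eq hK, int_cap_sub hK u τ τ hd hv]
  ring

/-- Caps of volume `d` minimise `GG K u τ + d τ`. -/
theorem GG_min (hK : IsCompact K) (u : E n) (τ τ' : ℝ) {d : ℝ} (hd : 0 ≤ d)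
    (hv : volume (cap K u τ) = ENNReal.ofReal d) : GG K u τ + d * τ ≤ GG K u τ' + d * τ' := by
  rw [GG_add hK u τ hd hv]
  have h := GG_ge hK u τ τ'
  rw [int_cap_sub hK u τ τ' hd hv] at h
  linarith

/-- The volume of a cap as an integral. -/
theorem vol_cap_eq (K : Set (E n)) (u : E n) (τ : ℝ) :
    vol (cap K u τ) = ∫ x in K, ({x : E n | τ ≤ inner ℝ u x}).indicator (fun _ => (1 : ℝ)) x := by
  have hm : MeasurableSet {x : E n | τ ≤ inner ℝ u x} :=
    measurableSet_le measurable_const (by fun_prop)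
  rw [integral_indicator hm, setIntegral_const, smul_eq_mul, mul_one, measureReal_def,
    Measure.restrict_apply hm, inter_comm]
  rfl

/-- The volume of the cap depends continuously on the level. -/
theorem vol_cap_cont (hK : IsCompact K) {u : E n} (hu : u ≠ 0) :
    Continuous fun τ : ℝ => vol (cap K u τ) := by
  have h1 : (fun τ : ℝ => vol (cap K u τ)) = fun τ =>
      ∫ x in K, ({x : E n | τ ≤ inner ℝ u x}).indicator (fun _ => (1 : ℝ)) x := by
    funext τ
    exact vol_cap_eq K u τ
  rw [h1, continuous_iff_continuousAt]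
  intro τ₀
  apply continuousAt_of_dominated (bound := fun _ => (1 : ℝ))
  · refine Filter.Eventually.of_forall fun τ => ?_
    have hm : MeasurableSet {x : E n | τ ≤ inner ℝ u x} :=
      measurableSet_le measurable_const (by fun_prop)
    exact (measurable_const.indicator hm).aestronglyMeasurable
  · refine Filter.Eventually.of_forall fun τ => Filter.Eventually.of_forall fun x => ?_
    by_cases hx : x ∈ {x : E n | τ ≤ inner ℝ u x}
    · rw [indicator_of_mem hx]; simp
    · rw [indicator_of_notMem hx]; simp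
  · exact int_on hK (f := fun _ : E n => (1 : ℝ)) continuous_const
  · have h0 : ∀ᵐ x : E n ∂(volume.restrict K), inner ℝ u x ≠ τ₀ := by
      apply ae_restrict_of_ae
      have := hyper_null hu τ₀
      rw [ae_iff]
      simpa using this
    filter_upwards [h0] with x hx
    rcases lt_or_gt_of_ne hx with h | h
    · have h2 : ∀ᶠ τ in 𝓝 τ₀, ({x : E n | τ ≤ inner ℝ u x}).indicator (fun _ => (1 : ℝ)) x = 0 := by
        filter_upwards [eventually_gt_nhds h] with τ hτ
        apply indicator_of_notMem
        intro h'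
        have h'' : τ ≤ inner ℝ u x := h'
        linarith
      exact (continuousAt_const (y := (0 : ℝ))).congr (h2.mono fun _ h => h.symm)
    · have h2 : ∀ᶠ τ in 𝓝 τ₀, ({x : E n | τ ≤ inner ℝ u x}).indicator (fun _ => (1 : ℝ)) x = 1 := by
        filter_upwards [eventually_lt_nhds h] with τ hτ
        have h3 : x ∈ {x : E n | τ ≤ inner ℝ u x} := le_of_lt hτ
        rw [indicator_of_mem h3]
      exact (continuousAt_const (y := (1 : ℝ))).congr (h2.mono fun _ h => h.symm)

/-- Caps of any volume between `0` and `volume K` exist. -/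
theorem exists_level (hK : IsCompact K) {u : E n} (hu : u ≠ 0) {d : ℝ} (hd : 0 ≤ d)
    (hdK : ENNReal.ofReal d ≤ volume K) : ∃ τ, volume (cap K u τ) = ENNReal.ofReal d := by
  obtain ⟨C, hC⟩ : ∃ C : ℝ, ∀ x ∈ K, |(inner ℝ u x : ℝ)| ≤ C := by
    obtain ⟨C, hC⟩ := hK.exists_bound_of_continuousOn (f := fun x => (inner ℝ u x : ℝ)) (by fun_prop)
    exact ⟨C, fun x hx => by simpa using hC x hx⟩
  have hfin : volume K ≠ ⊤ := hK.measure_lt_top.ne
  have h1 : cap K u (-C) = K := by
    apply Subset.antisymm (cap_subset u _)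
    intro x hx
    exact ⟨hx, by
      show -C ≤ inner ℝ u x
      have := abs_le.1 (hC x hx)
      linarith [this.1]⟩
  have h2 : cap K u (C + 1) = ∅ := by
    apply Set.eq_empty_of_forall_notMem
    rintro x ⟨hx, hx2⟩
    have h3 : C + 1 ≤ inner ℝ u x := hx2
    have := abs_le.1 (hC x hx)
    linarith [this.2]
  obtain ⟨τ, hτ⟩ : d ∈ Set.range fun τ : ℝ => vol (cap K u τ) := by
    apply mem_range_of_exists_le_of_exists_ge (vol_cap_cont hK hu)
    · refine ⟨C + 1, ?_⟩
      show vol (cap K u (C + 1)) ≤ d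
      rw [h2]
      simpa [vol] using hd
    · refine ⟨-C, ?_⟩
      show d ≤ vol (cap K u (-C))
      rw [h1, vol]
      exact (ENNReal.ofReal_le_iff_le_toReal hfin).1 hdK
  refine ⟨τ, ?_⟩
  have h4 : volume (cap K u τ) ≠ ⊤ := ((measure_mono (cap_subset u τ)).trans_lt hK.measure_lt_top).ne
  have h5 : (volume (cap K u τ)).toReal = d := hτ
  rw [← h5, ENNReal.ofReal_toReal h4]

/-- (LEV) Caps of a given volume minimise `GG K u τ + d τ`, and exist. -/
theorem level : S_level := by
  intro n K hK d hd hdK u hu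
  exact ⟨exists_level hK.comp hu hd.le hdK.le, fun τ τ' hv => GG_min hK.comp u τ τ' hd.le hv⟩

end Pool.Agent.Helper65.LR
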