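import Pool.Agent.Helper65.LR.Lev

/-!
# The equation at density one half (project MP_a2630c_LR, module RH)
-/

open MeasureTheory Set Metric Real Filter Topology
open scoped RealInnerProductSpace ENNReal
open Pool.Agent.Helper16.Buoy (E cap IsEllipsoid Homothetic buoyancyBody)
open Pool.Agent.Helper73.HV (supp SBody)

namespace Pool.Agent.Helper65.LR

open Pool.Agent.Helper73.LR Pool.Agent.Helper51.HV

variable {n : ℕ} {K : Set (E n)}

/-! ### Support functions -/

theorem supp_greatest (hK : IsCompact K) (hne : K.Nonempty) (u : E n) :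
    IsGreatest ((fun x => (inner ℝ u x : ℝ)) '' K) (supp K u) := by
  have h1 : IsCompact ((fun x => (inner ℝ u x : ℝ)) '' K) := hK.image (by fun_prop)
  exact h1.isGreatest_sSup (hne.image _)

theorem le_supp (hK : IsCompact K) {x : E n} (hx : x ∈ K) (u : E n) : inner ℝ u x ≤ supp K u :=
  (supp_greatest hK ⟨x, hx⟩ u).2 ⟨x, hx, rfl⟩

theorem supp_smul (hK : IsCompact K) (hne : K.Nonempty) {a : ℝ} (ha : 0 ≤ a) (u : E n) :
    supp K (a • u) = a * supp K u := by
  have h := supp_greatest hK hne u
  apply IsGreatest.csSup_eq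
  constructor
  · obtain ⟨x, hx, hxu⟩ := h.1
    refine ⟨x, hx, ?_⟩
    have hxu' : inner ℝ u x = supp K u := hxu
    show inner ℝ (a • u) x = a * supp K u
    rw [inner_smul_left, ← hxu']
    simp
  · rintro _ ⟨x, hx, rfl⟩
    show inner ℝ (a • u) x ≤ a * supp K u
    rw [inner_smul_left]
    simp only [conj_trivial]
    exact mul_le_mul_of_nonneg_left (le_supp hK hx u) ha

theorem supp_trans (hK : IsCompact K) (hne : K.Nonempty) (p u : E n) :
    supp ((fun x => x - p) '' K) u = supp K u - inner ℝ u p := by
  have h := supp_greatest hK hne u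
  apply IsGreatest.csSup_eq
  constructor
  · obtain ⟨x, hx, hxu⟩ := h.1
    have hxu' : inner ℝ u x = supp K u := hxu
    refine ⟨x - p, ⟨x, hx, rfl⟩, ?_⟩
    show inner ℝ u (x - p) = _
    rw [inner_sub_right, hxu']
  · rintro _ ⟨_, ⟨x, hx, rfl⟩, rfl⟩
    show inner ℝ u (x - p) ≤ _
    rw [inner_sub_right]
    have := le_supp hK hx u
    linarith

/-- A compact convex set is determined by its support function. -/
theorem mem_of_supp (hconv : Convex ℝ K) (hK : IsCompact K) {x : E n}
    (h : ∀ u : E n, inner ℝ u x ≤ supp K u) (hne : K.Nonempty) : x ∈ K := by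
  by_contra hx
  obtain ⟨f, s, h1, h2⟩ := geometric_hahn_banach_closed_point hconv hK.isClosed hx
  set u : E n := (InnerProductSpace.toDual ℝ (E n)).symm f with hu
  have hf : ∀ y, inner ℝ u y = f y := fun y => by
    rw [hu, InnerProductSpace.toDual_symm_apply]
  obtain ⟨y, hy, hyu⟩ := (supp_greatest hK hne u).1
  have h3 : inner ℝ u y = supp K u := hyu
  have h4 := h u
  rw [← h3, hf, hf] at h4
  have h5 := h1 y hy
  linarith

theorem centroid_image (K : Set (E n)) (p u : E n) :
    ∫ x in (fun x => x - p) '' K, |(inner ℝ u x : ℝ)| = ∫ x in K, |(inner ℝ u (x - p) : ℝ)| := by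
  have h1 : MeasurePreserving (fun x : E n => x - p) volume volume :=
    measurePreserving_sub_right volume p
  exact h1.setIntegral_image_emb (MeasurableEquiv.subRight p).measurableEmbedding
    (fun x => |(inner ℝ u x : ℝ)|) K

theorem red_half : S_red_half := by
  intro n K hn hK hsol
  obtain ⟨c, b, hc, heq⟩ := hsol
  have hne : K.Nonempty := hK.int.mono interior_subset
  have hVpos : 0 < volume K :=
    (isOpen_interior.measure_pos volume hK.int).trans_le (measure_mono interior_subset)
  have hVfin : volume K ≠ ⊤ := hK.comp.measure_lt_top.ne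
  have hV : 0 < vol K := ENNReal.toReal_pos hVpos.ne' hVfin
  set V : ℝ := vol K with hVdef
  have hVK : volume K = ENNReal.ofReal V := (ENNReal.ofReal_toReal hVfin).symm
  set d : ℝ := 1 / 2 * V with hd
  have hdpos : 0 < d := by positivity
  have h2d : V = d + d := by rw [hd]; ring
  have hd2 : 2 * ENNReal.ofReal d = volume K := by
    rw [hVK, h2d, ENNReal.ofReal_add hdpos.le hdpos.le, two_mul]
  -- complementary caps
  have hcompl : ∀ u : E n, u ≠ 0 → ∀ τ, volume (cap K u τ) = ENNReal.ofReal d →
      volume (cap K (-u) (-τ)) = ENNReal.ofReal d := by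
    intro u hu τ hv
    have h1 := vol_compl hK.comp hu τ
    rw [hv, ← hd2, two_mul] at h1
    exact (ENNReal.add_right_inj ENNReal.ofReal_ne_top).1 h1
  -- the value does not depend on the level
  have hval : ∀ u : E n, ∀ τ τ' : ℝ, volume (cap K u τ) = ENNReal.ofReal d →
      volume (cap K u τ') = ENNReal.ofReal d → GG K u τ + d * τ = GG K u τ' + d * τ' := by
    intro u τ τ' h1 h2
    exact le_antisymm (GG_min hK.comp u τ τ' hdpos.le h1) (GG_min hK.comp u τ' τ hdpos.le h2)
  -- the value for the opposite direction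
  have hopp : ∀ (u : E n) (τ : ℝ), GG K (-u) (-τ) = GG K u τ - (∫ x in K, (inner ℝ u x : ℝ)) + V * τ := by
    intro u τ
    unfold GG
    have hi1 := GG_int hK.comp u τ
    have hi2 : IntegrableOn (fun x : E n => (inner ℝ u x - τ : ℝ)) K :=
      int_on hK.comp (f := fun x => (inner ℝ u x - τ : ℝ)) (by fun_prop)
    have hi3 : IntegrableOn (fun x : E n => (inner ℝ u x : ℝ)) K :=
      int_on hK.comp (f := fun x => (inner ℝ u x : ℝ)) (by fun_prop)
    have hi4 : IntegrableOn (fun _ : E n => τ) K :=
      int_on hK.comp (f := fun _ => τ) (by fun_prop)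
    have h1 : ∫ x in K, max (inner ℝ (-u) x - -τ) 0 =
        ∫ x in K, (max (inner ℝ u x - τ) 0 - (inner ℝ u x - τ)) := by
      apply integral_congr_ae
      refine Filter.Eventually.of_forall fun x => ?_
      show max (inner ℝ (-u) x - -τ) 0 = max (inner ℝ u x - τ) 0 - (inner ℝ u x - τ)
      rw [inner_neg_left]
      rcases le_total (inner ℝ u x - τ : ℝ) 0 with h3 | h3
      · rw [max_eq_left (by linarith), max_eq_right h3]
        ring
      · rw [max_eq_right (by linarith), max_eq_left h3]
        ring
    rw [h1, integral_sub hi1 hi2, integral_sub hi3 hi4, setIntegral_const, measureReal_def]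
    show _ = _ - _ + (volume K).toReal * τ
    rw [smul_eq_mul]
    ring
  set g : E n := (∫ x in K, x) with hg
  have hgu : ∀ u : E n, ∫ x in K, (inner ℝ u x : ℝ) = inner ℝ u g := by
    intro u
    rw [hg]
    exact integral_inner (int_on hK.comp (f := fun x : E n => x) (by fun_prop)) u
  -- the support function is symmetric up to a linear function
  set p : E n := c⁻¹ • (V⁻¹ • g - b) with hp
  have hcp : c • p = V⁻¹ • g - b := by
    rw [hp, smul_smul, mul_inv_cancel₀ hc.ne', one_smul]
  have hsym1 : ∀ u : E n, ‖u‖ = 1 → supp K u - supp K (-u) = 2 * inner ℝ u p := by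
    intro u hu
    have hu0 : u ≠ 0 := by
      rintro rfl
      simp at hu
    obtain ⟨τ, hτ, he⟩ := heq u hu
    obtain ⟨τ', hτ', he'⟩ := heq (-u) (by rw [norm_neg, hu])
    have h1 := hval (-u) τ' (-τ) hτ' (hcompl u hu0 τ hτ)
    rw [h1, hopp, hgu] at he'
    have h2 : c * inner ℝ u p = V⁻¹ * inner ℝ u g - inner ℝ u b := by
      rw [← inner_smul_right, hcp, inner_sub_right, inner_smul_right]
    rw [inner_neg_right, real_inner_comm u b] at he'
    rw [real_inner_comm u b] at he
    have h3 : d * (c * supp K u + inner ℝ u b) - inner ℝ u g = d * (c * supp K (-u) + -inner ℝ u b) := by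
      rw [← he, ← he']
      rw [h2d]
      ring
    have h4 : inner ℝ u g = V * (c * inner ℝ u p + inner ℝ u b) := by
      rw [h2]
      field_simp
      ring
    rw [h4, h2d] at h3
    have h5 : d * c * (supp K u - supp K (-u) - 2 * inner ℝ u p) = 0 := by linarith
    have h6 := (mul_eq_zero.1 h5).resolve_left (by positivity)
    linarith
  have hsym : ∀ u : E n, supp K u - supp K (-u) = 2 * inner ℝ u p := by
    intro u
    by_cases hu : u = 0
    · subst hu
      simp
    · have hnu : 0 < ‖u‖ := norm_pos_iff.2 hu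
      have h1 := hsym1 (‖u‖⁻¹ • u) (by rw [norm_smul, norm_inv, norm_norm, inv_mul_cancel₀ hnu.ne'])
      rw [← smul_neg, supp_smul hK.comp hne (inv_nonneg.2 hnu.le), supp_smul hK.comp hne (inv_nonneg.2 hnu.le),
        inner_smul_left] at h1
      simp only [conj_trivial] at h1
      have h2 : ‖u‖⁻¹ * (supp K u - supp K (-u) - 2 * inner ℝ u p) = 0 := by linarith
      have h3 := (mul_eq_zero.1 h2).resolve_left (by positivity)
      linarith
  -- the body is symmetric
  have hKp : ∀ x ∈ K, (2 : ℝ) • p - x ∈ K := by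
    intro x hx
    apply mem_of_supp hK.conv hK.comp _ hne
    intro u
    have h1 := le_supp hK.comp hx (-u)
    rw [inner_neg_left] at h1
    rw [inner_sub_right, inner_smul_right]
    have h2 := hsym u
    linarith
  have hS : SBody ((fun x => x - p) '' K) := by
    refine ⟨?_, ?_, ?_, ?_⟩
    · have := hK.conv.translate (-p)
      simpa [sub_eq_neg_add] using this
    · exact hK.comp.image (by fun_prop)
    · have : interior ((fun x => x - p) '' K) = (fun x => x - p) '' interior K := by
        have := (Homeomorph.subRight p).image_interior K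
        exact this.symm
      rw [this]
      exact hK.int.image _
    · rintro _ ⟨x, hx, rfl⟩
      refine ⟨(2 : ℝ) • p - x, hKp x hx, ?_⟩
      show (2 : ℝ) • p - x - p = -(x - p)
      module
  -- the equation at the level of the centre
  have hmain : ∀ u : E n, ‖u‖ = 1 →
      d * (c * supp K u + inner ℝ u b) = 1 / 2 * (∫ x in K, |(inner ℝ u (x - p) : ℝ)|) + d * inner ℝ u p := by
    intro u hu
    have hu0 : u ≠ 0 := by
      rintro rfl
      simp at hu
    obtain ⟨τ, hτ, he⟩ := heq u hu
    rw [real_inner_comm u b] at he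
    have h1 := hval u τ (inner ℝ u p) hτ (vol_half hK.comp hKp hu0 hd2)
    rw [← he, h1, ← int_pos_half hK.comp hKp u]
    congr 1
    unfold GG
    rw [← mul_assoc]
    norm_num
    simp only [inner_sub_right]
  have hfin1 : ∀ u : E n, ‖u‖ = 1 → supp K u - inner ℝ u p = (V * c)⁻¹ * ∫ x in K, |(inner ℝ u (x - p) : ℝ)| := by
    intro u hu
    have h1 := hmain u hu
    have h2 := hmain (-u) (by rw [norm_neg, hu])
    have h3 := hsym u
    simp only [inner_neg_left, abs_neg] at h2
    have h4 : d * c * (supp K u - inner ℝ u p) = 1 / 2 * (∫ x in K, |(inner ℝ u (x - p) : ℝ)|) := by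
      have h5 : supp K (-u) = supp K u - 2 * inner ℝ u p := by linarith
      rw [h5] at h2
      linarith
    have h6 : V = 2 * d := by rw [h2d]; ring
    rw [h6, eq_comm, inv_mul_eq_iff_eq_mul₀ (by positivity)]
    linarith
  refine ⟨p, (V * c)⁻¹, by positivity, hS, fun u => ?_⟩
  rw [supp_trans hK.comp hne, centroid_image]
  by_cases hu : u = 0
  · subst hu
    have h1 : supp K (0 : E n) = 0 := by
      have := supp_smul hK.comp hne (le_refl (0 : ℝ)) (0 : E n)
      simpa using this
    simp [h1]
  · have hnu : 0 < ‖u‖ := norm_pos_iff.2 hu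
    have h1 := hfin1 (‖u‖⁻¹ • u) (by rw [norm_smul, norm_inv, norm_norm, inv_mul_cancel₀ hnu.ne'])
    rw [supp_smul hK.comp hne (inv_nonneg.2 hnu.le), inner_smul_left] at h1
    simp only [conj_trivial] at h1
    have h2 : ∫ x in K, |(inner ℝ (‖u‖⁻¹ • u) (x - p) : ℝ)| = ‖u‖⁻¹ * ∫ x in K, |(inner ℝ u (x - p) : ℝ)| := by
      rw [← integral_const_mul]
      apply integral_congr_ae
      refine Filter.Eventually.of_forall fun x => ?_
      show |(inner ℝ (‖u‖⁻¹ • u) (x - p) : ℝ)| = ‖u‖⁻¹ * |(inner ℝ u (x - p) : ℝ)|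
      rw [inner_smul_left]
      simp only [conj_trivial]
      rw [abs_mul, abs_of_pos (inv_pos.2 hnu)]
    rw [h2] at h1
    have h3 : ‖u‖⁻¹ * (supp K u - inner ℝ u p - (V * c)⁻¹ * ∫ x in K, |(inner ℝ u (x - p) : ℝ)|) = 0 := by
      linarith
    have h4 := (mul_eq_zero.1 h3).resolve_left (by positivity)
    linarith

end Pool.Agent.Helper65.LR
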